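import Pool.Agent.R807.ZK2
import Pool.Agent.TH38.ZT.Trace

/-!
Zero in the spectrum for closed aspherical manifolds (and finite aspherical complexes) which fibre
over a tower of circle bundles, with a section or with fibres without rational homology in small
degrees; the fundamental group of the fibre is amenable.

A closed aspherical manifold `M` with fundamental group `G` is homotopy equivalent to a finite CW
complex, and the cellular chain complex of the universal cover of that complex is a finite free
resolution `X` of the trivial `ℤ[G]`-module `ℤ` (`Pool.Agent.H919R4.ZS.FinRes`).  Its homology with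
coefficients in `C*_r(G)` is the homology of `M` with these coefficients.

Let `F → M → E` be a fibre bundle of closed aspherical manifolds.  Then `G = π_1(M)` has the normal
subgroup `N = π_1(F)` with `G/N = π_1(E)`, and a section of the bundle gives a section of `G → G/N`.
`Tower (G/N) B` (`Pool.Agent.TH38.ZT.Tower`): `B` arises from `G/N` by successively dividing out
infinite cyclic normal subgroups (`E` is an iterated circle bundle over a manifold with the group
`B`).  Amenability is the Foelner condition (`Pool.Agent.H496R3.ZS.IsAmenable`), `euler Y`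
(`Pool.Agent.TH38.ZT.euler`) is the Euler characteristic.
-/

set_option autoImplicit false

namespace Pool.Agent.Results.MP_48737f_gt.AmenableFibreTowers

open Pool.Agent.H919R4.ZS (FinRes RedC toRed)
open Pool.Agent.H496R3.ZS (IsAmenable)
open Pool.Agent.TH38.ZT (Tower euler)

variable {G : Type} [Group G]

/-- The ring homomorphism `ℤ[G] → ℚ[G/N]`.  So `X.homology (toRat N) i`, the homology of
`ℚ[G/N] ⊗_{ℤ[G]} X`, is `H_i(N; ℚ)`. -/
noncomputable def toRat (N : Subgroup G) [N.Normal] :
    MonoidAlgebra ℤ G →+* MonoidAlgebra ℚ (G ⧸ N) :=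
  (MonoidAlgebra.mapRingHom (G ⧸ N) (Int.castRingHom ℚ)).comp
    (MonoidAlgebra.mapDomainRingHom ℤ (QuotientGroup.mk' N))

/-- The extension `1 → N → G → G/N → 1` splits: `G` is a semidirect product of `N` and `G/N`. -/
def Splits (N : Subgroup G) [N.Normal] : Prop :=
  ∃ s : G ⧸ N →* G, ∀ q, (QuotientGroup.mk (s q) : G ⧸ N) = q

/-- Let `N` be an amenable normal subgroup of `G`, let `B` arise from `G/N` by successively dividing
out infinite cyclic normal subgroups, let `Y` be a finite free resolution of `ℤ` over `ℤ[B]`, and let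
`i` be a number such that
* `H_i(B; C*_r(B)) ≠ 0`, or
* `i` is the length of `Y` and the Euler characteristic of `Y` is not zero, or
* `i = 2`, and the length of `Y` is at most two or `H^k(B; ℤ[B]) ≠ 0` for some `k ≤ 2`.
Let `X` be a finite free resolution of `ℤ` over `ℤ[G]` (for a closed aspherical manifold `M` with
fundamental group `G`, its homology with coefficients in `C*_r(G)` is that of `M`).  If the extension
`G` of `G/N` by `N` splits, or if `H_q(N; ℚ) = 0` for all `1 ≤ q < i`, then there is `j ≤ i` with
`H_j(M; C*_r(G)) ≠ 0`. -/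
theorem result (N : Subgroup G) [N.Normal] (hN : IsAmenable N) (B : Type) [Group B]
    (hB : Tower (G ⧸ N) B) (Y : FinRes B) (i : ℕ)
    (hY : Nontrivial (Y.homology (toRed B) i) ∨ (i = Y.len ∧ euler Y ≠ 0) ∨
      (i = 2 ∧ (Y.len ≤ 2 ∨ ∃ k ≤ 2, Nontrivial (Y.cohomology k))))
    (X : FinRes G)
    (hX : Splits N ∨ ∀ q, 1 ≤ q → q < i → Subsingleton (X.homology (toRat N) q)) :
    ∃ j ≤ i, Nontrivial (X.homology (toRed G) j) := by
  obtain ⟨⟨W⟩, h2⟩ := Pool.Agent.TH38.ZT.tower hB Y
  obtain ⟨k, hk, hk'⟩ : ∃ k ≤ i, Nontrivial (Y.homology (toRed B) k) := by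
    rcases hY with h | ⟨rfl, h⟩ | ⟨rfl, h⟩
    · exact ⟨i, le_rfl, h⟩
    · exact Pool.Agent.TH38.ZT.exists_of_euler Y h
    · exact Pool.Agent.H919R4.ZS.main Y h
  obtain ⟨l, hl, hl'⟩ : ∃ l ≤ k, Nontrivial (W.homology (toRed (G ⧸ N)) l) := by
    by_contra hcon
    push Not at hcon
    exact not_nontrivial_iff_subsingleton.2 (h2 W k hcon k le_rfl) hk'
  obtain ⟨j, hj, hj'⟩ := Pool.Agent.R807.ZK.extension N hN X W l hl'
    (hX.imp_right fun h q h1 h3 => h q h1 (h3.trans_le (hl.trans hk)))
  exact ⟨j, hj.trans (hl.trans hk), hj'⟩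

end Pool.Agent.Results.MP_48737f_gt.AmenableFibreTowers
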