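import Pool.Agent.R778.Refl2

/-!
Zero in the spectrum for closed aspherical manifolds (and finite aspherical complexes) `M` whose
universal cover has commuting reflections with walls that meet in a compact set. There is no
hypothesis on the fundamental group of `M`.

`X : FinRes G` is the cellular chain complex of the universal cover of a finite aspherical complex
`M` with fundamental group `G` (`Pool.Agent.H919R4.ZS.Defs`), `X.len` is the dimension of `M` and
`X.homology (toRed G) i` is `H_i(M; C*_r(G))`. The cells of the universal cover, incidence
numbers and cellular automorphisms are defined in `Pool.Agent.R778.ZSDefs`, adjacency, deck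
transformations and reflections in `Pool.Agent.R778.Refl`. The automorphisms need not commute
with or normalise the group of deck transformations.

Example (not formalised here): the closed aspherical `n`-manifolds `M` which Davis' reflection
group trick constructs from an arbitrary compact aspherical manifold with boundary. The universal
cover has a group which acts properly and cocompactly and contains `n` commuting reflections whose
walls meet transversally in a single point.
-/

set_option autoImplicit false

namespace Pool.Agent.Results.MP_48737f_gt.CommutingReflections

open Pool.Agent.H919R4.ZS (FinRes toRed)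
open Pool.Agent.R778.ZS (Cell CellAut inc Adj deck Reflection)

/-- (1) Let `φ` be a cellular involution of the universal cover of `M`, and let `f` be a Lipschitz
map from the set of its cells to a Hilbert space `H`, such that for every `R` there are only
finitely many cells `σ` with `‖f(σ) - f(φ(σ))‖ ≤ R`. Then `H_i(M; C*_r(G)) ≠ 0` for some
`i ≤ dim M`.

(2) Suppose that the adjacency graph of the cells of the universal cover is connected (for
instance, `M` is a regular CW complex). Let `r 0, …, r (k - 1)` be commuting reflections of the
universal cover such that `r j` preserves the sides of the wall of `r i` (`i ≠ j`), such that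
every cell lies in only finitely many of the translates of the wall of `r i` under the deck
transformations, and such that only finitely many cells lie in all the `k` walls. Then
`H_i(M; C*_r(G)) ≠ 0` for some `i ≤ dim M`. -/
theorem result (G : Type) [Group G] (X : FinRes G) :
    (∀ (φ : CellAut X) (_ : φ.perm ^ 2 = 1)
      (H : Type) (_ : NormedAddCommGroup H) (_ : InnerProductSpace ℂ H) (f : Cell X → H) (C : ℝ)
      (_ : ∀ σ ρ, inc X σ ρ ≠ 0 → ‖f σ - f ρ‖ ≤ C)
      (_ : ∀ R : ℝ, {σ | ‖f σ - f (φ.perm σ)‖ ≤ R}.Finite),
      ∃ i ≤ X.len, Nontrivial (X.homology (toRed G) i)) ∧
    ((∀ σ ρ : Cell X, Relation.ReflTransGen (Adj X) σ ρ) → ∀ (k : ℕ) (r : Fin k → Reflection X)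
      (_ : ∀ i j σ, (r i).perm ((r j).perm σ) = (r j).perm ((r i).perm σ))
      (_ : ∀ i j, i ≠ j → ∀ σ, (r i).side ((r j).perm σ) = (r i).side σ)
      (_ : ∀ i σ, {S : Set (Cell X) | (∃ g : G, S = deck g '' (r i).wall) ∧ σ ∈ S}.Finite)
      (_ : {σ | ∀ i, σ ∈ (r i).wall}.Finite),
      ∃ i ≤ X.len, Nontrivial (X.homology (toRed G) i)) := by
  refine ⟨fun φ hφ H _ _ f C hf hp => Pool.Agent.R778.ZS.main_involution φ hφ f C hf hp, ?_⟩
  intro hconn k r hcomm hside hloc hfin
  exact Pool.Agent.R778.ZS.main_reflections hconn r hcomm hside hloc hfin

end Pool.Agent.Results.MP_48737f_gt.CommutingReflections
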