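import Pool.Agent.R779.BC.Thm

/-!
# Splittings with homomorphisms that are injective on the edge groups, and zero in the spectrum

If `H_i(M; C*_r(π)) = 0` for all `i` then the higher index of the signature operator of `M` vanishes, so
Q1 holds for all closed aspherical manifolds whose fundamental group satisfies the strong Novikov
conjecture. `B` is a class of groups with the inheritance properties of the Baum–Connes conjecture with
coefficients, and `S` satisfies the extension criterion for injectivity of the assembly maps with
coefficients (`Inherit B S`), which implies the strong Novikov conjecture; `W B` contains the free
groups.

`W B` is the class of the groups `G` such that every countable group with a subgroup of finite index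
which embeds in a finite power of `G` is in `B` (equivalently: finite wreath products over `G`). It is
closed under subgroups, overgroups of finite index, directed unions and arbitrary extensions
(`MP_ba76ae_gt.ElementaryExtensions`). Closure of `B` under actions on trees (Oyono-Oyono, Tu) does not
give closure of `W B` under actions on trees.

1. Let `f : G → Q` be a homomorphism to any group, and let `G` be built by amalgamated products and HNN
   extensions on whose edge groups `f` is injective, and by directed unions (graphs of groups), from
   groups on which the kernel of `f` is in `W B`. Then the kernel of `f` is in `W B`; so, for
   countable `G`, if `G / ker f` is in `B` (in `S`) then `G` is in `B` (in `S`).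
2. A group given by blocks of generators and relators which involve only pairwise adjacent blocks and
   remain consequences of the relators when a block is killed is in `W B` if the subgroups generated by
   the finite sets of pairwise adjacent blocks are (graph products, even Artin groups, Coxeter groups,
   Shephard groups and their generalisations, of any rank).
3. In particular this holds for Artin and Shephard groups with the blocks given by the components of
   the graph of odd labels.

Outline of the proof. If `f` is injective on the factors of an amalgamated product then `G` embeds in
`F(X) ⋊ Q` for a `Q`-set `X`, so the kernel of `f` is free. In general let `R` be the normal closure of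
the kernels on the factors. There are homomorphisms of `G` to unrestricted wreath products over both
factors (constructed in `MP_8f66f0_al.EdgeInjectiveSplittings`) which are injective on the factor and map
`R` to finitely supported functions with values in the kernel of `f` on the factor. So `R` is an
extension of a group in `W B` by a free group, and the kernel of `f` is an extension of a free group by
`R`.
-/

set_option autoImplicit false

namespace Pool.Agent.Results.MP_48737f_gt.KernelsOfSplittings

open Pool.Agent.R941.BC (Inherit W)
open Pool.Agent.R779.BC (Split)
open Pool.Agent.R665.FJ.Flag

theorem result {B S : ∀ (G : Type) [Group G], Prop} (h : Inherit B S)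
    (hF : W B (FreeGroup ℕ)) :
    (∀ (Q G : Type) [Group Q] [Group G] (f : G →* Q), Split (W B) Q G f → W B f.ker ∧
      (Countable G → (B (G ⧸ f.ker) → B G) ∧ (S (G ⧸ f.ker) → S G))) ∧
    (∀ (X V : Type) (β : X → V) (adj : V → V → Prop) (rels : Set (FreeGroup X)),
      FlagPres β adj rels →
      (∀ U : Finset V, (∀ v ∈ U, ∀ w ∈ U, v ≠ w → adj v w) → W B ↥(blocks β rels (U : Set V))) →
      W B (PresentedGroup rels)) ∧
    (∀ (X V : Type) (β : X → V) (m : X → X → ℕ) (p : X → ℕ),
      (∀ x y, Odd (m x y) → β x = β y) →
      (∀ U : Finset V, (∀ v ∈ U, ∀ w ∈ U, v ≠ w → Joined β m v w) →
        W B ↥(blocks β (artin m p) (U : Set V))) →
      W B (PresentedGroup (artin m p))) :=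
  Pool.Agent.R779.BC.main h hF

end Pool.Agent.Results.MP_48737f_gt.KernelsOfSplittings
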